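import Pool.Agent.X324.CF.Defs

/-!
# Varieties `F` for which the cone conjecture holds, and automorphisms of `(A × F) / G`: definitions

`F` is a normal projective variety, `ℚ`-factorial, with free class group `Cl(F) = ℤ^ρ` (so that the
Albanese variety of `F` is trivial), and `R = ⨁ 𝒜 β`, `𝒜 β = H⁰(F, O_F(β))`.
-/

set_option autoImplicit false

namespace Pool.Agent.J4H47.CG

open Pool.Agent.W594.SYZ2 Pool.Agent.TH735.AQ Pool.Agent.X324.CF
open Pool.Agent.Y167 (cone)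

section Fibre

variable {ρ : ℕ} {R : Type*} [CommRing R] [Algebra ℂ R] (𝒜 : Cl ρ → Submodule ℂ R)

/-- The class `β` as a class with real coefficients. -/
def real (β : Cl ρ) : Fin ρ → ℝ := fun i => β i

/-- The nef cone of `F`: the closure of the convex cone spanned by the semiample classes. -/
def nefConeF (u : Cl ρ) : Set (Fin ρ → ℝ) :=
  closure (coneHull {x | ∃ β, SemiampleF 𝒜 u β ∧ x = real β})

/-- The effective cone of `F` (not closed up). -/
def effConeF : Set (Fin ρ → ℝ) := coneHull {x | ∃ β, (∃ r ∈ 𝒜 β, r ≠ 0) ∧ x = real β}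

/-- The linear map `s` is the action on real classes of an automorphism of `F` given by the
automorphism `ψ` of `R`. -/
def IsAction (ψ : R ≃ₐ[ℂ] R) (s : (Fin ρ → ℝ) →ₗ[ℝ] (Fin ρ → ℝ)) : Prop :=
  ∃ σ, Induces 𝒜 ψ σ ∧ ∀ β, s (real β) = real (σ β)

/-- `F` is a normal projective variety, `ℚ`-factorial with free class group and with ample class `u`:
`F` is not empty; every class becomes effective and semiample when a multiple of `u` is added; some
integral linear form on `Cl(F)` (the intersection number with a curve) is positive for all nonzero nef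
classes. `Ψ` is a group of automorphisms of `F`, and only finitely many elements of `Ψ` (up to the
automorphisms of `R` which act trivially on `F`) act trivially on `Cl(F)`. -/
structure IsFibre (u : Cl ρ) (Ψ : Subgroup (R ≃ₐ[ℂ] R)) : Prop where
  point : ∃ p : R →ₐ[ℂ] ℂ, Semistable 𝒜 u p
  sections : ∀ β : Cl ρ, ∃ m : ℕ, (∃ r ∈ 𝒜 (β + m • u), r ≠ 0) ∧ ∃ r ∈ 𝒜 (m • u), r ≠ 0
  ample : ∀ β : Cl ρ, ∃ m : ℕ, SemiampleF 𝒜 u (β + m • u)
  curve : ∃ ξ : (Fin ρ → ℝ) →ₗ[ℝ] ℝ, (∀ β : Cl ρ, ∃ k : ℤ, ξ (real β) = k) ∧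
    ∀ x ∈ nefConeF 𝒜 u, x ≠ 0 → 0 < ξ x
  perm : ∀ ψ ∈ Ψ, ∃ σ, Induces 𝒜 ψ σ
  points : ∀ ψ ∈ Ψ, ∀ p : R →ₐ[ℂ] ℂ, Semistable 𝒜 u p →
    Semistable 𝒜 u (p.comp (ψ : R →ₐ[ℂ] R))
  discrete : ∃ T : Set (R ≃ₐ[ℂ] R), T.Finite ∧ ∀ ψ ∈ Ψ, Induces 𝒜 ψ (AddEquiv.refl _) →
    ∃ t ∈ T, t⁻¹ * ψ ∈ Scal 𝒜

/-- The cone conjecture holds for the action of `Ψ` on the nef effective cone of `F`: this cone
contains the rational polyhedral cone spanned by the classes `w i`, and is covered by its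
translates. -/
structure HoldsF (u : Cl ρ) (Ψ : Subgroup (R ≃ₐ[ℂ] R)) {n : ℕ} (w : Fin n → Cl ρ) : Prop where
  mem : ∀ i, real (w i) ∈ nefConeF 𝒜 u ∩ effConeF 𝒜
  cover : ∀ x ∈ nefConeF 𝒜 u ∩ effConeF 𝒜, ∃ ψ ∈ Ψ, ∃ s, IsAction 𝒜 ψ s ∧
    ∃ c : Fin n → ℝ, (∀ i, 0 ≤ c i) ∧ s x = ∑ i, c i • real (w i)

end Fibre

/-- The groups of affine transformations. -/
abbrev AffG (W : Type*) [NormedAddCommGroup W] [NormedSpace ℂ W] : Type _ := Subgroup (W ≃ᵃ[ℂ] W)

section Pairs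

variable {V R : Type*} [NormedAddCommGroup V] [NormedSpace ℂ V] [CommRing R] [Algebra ℂ R]
  {ρ : ℕ} (𝒜 : Cl ρ → Submodule ℂ R)

/-- The pairs `(a, φ)` which act on `V × F` like an element of `Γ`. -/
def hat (Γ : Grp V R) : Set (Elt V R) := {g | ∃ γ ∈ Γ, ∃ s ∈ Scal 𝒜, g = γ * (1, s)}

/-- The transformation of `V × F` given by the pair `g` normalises the group of transformations of
`V × F` given by `Γ`, so that it induces an automorphism of `X = (V × F) / Γ`. -/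
def NormalizesP (Γ : Grp V R) (g : Elt V R) : Prop :=
  ∀ γ, γ ∈ hat 𝒜 Γ ↔ g * γ * g⁻¹ ∈ hat 𝒜 Γ

variable {𝒜}

/-- The automorphism of `X` given by the pair `(f, ψ)` maps the divisors of all the sections `s i`
with `r i ≠ 0` to themselves, and so the divisor `Δ`. -/
def FixedP {Γ : Grp V R} {ι : Type*} (Δ : EffDiv 𝒜 Γ ι) (g : Elt V R) : Prop :=
  ∀ i, Δ.r i ≠ 0 → ∃ h : V → ℂ, Differentiable ℂ h ∧ (∀ v, h v ≠ 0) ∧
    ∀ v, Δ.s i (g.1 v) = h v • g.2 (Δ.s i v)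

variable {E : Type*} [NormedAddCommGroup E] [NormedSpace ℂ E] {Γ : Grp V R} {j : E →ₗ[ℂ] V}

/-- `G` is the pullback on `N^1(X/Z)` by the automorphism of `X` induced by the pair `g = (f, ψ)`,
that is, by the transformation `(v, p) ↦ (f v, p ∘ ψ⁻¹)` of `V × F`. -/
def IsPullbackP (g : Elt V R) (G : N1 𝒜 Γ j ≃ₗ[ℝ] N1 𝒜 Γ j) : Prop :=
  ∀ x : N1 𝒜 Γ j, (∀ u w u' w' : E, j u' = g.1.linear (j u) → j w' = g.1.linear (j w) →
    (val (G x)).1 u w = (val x).1 u' w') ∧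
    ∀ s, IsAction 𝒜 g.2 s → s (val (G x)).2 = (val x).2

end Pairs

end Pool.Agent.J4H47.CG
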