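import Pool.Agent.J4H47.CG.Siegel
import Pool.Agent.J4H47.CG.Defs
import Pool.Agent.X324.CF.Plus2

/-!
# The action on the classes of `F`
-/

set_option autoImplicit false

namespace Pool.Agent.J4H47.CG

open Finset Filter Topology
open Pool.Agent.W594.SYZ2 Pool.Agent.TH735.AQ Pool.Agent.X324.CF
open Pool.Agent.Y167 (cone cone_add cone_smul cone_le cone_mono cone_sum mem_cone_self
  zero_mem_cone cone_image cone_ind cone_of_scaled mem_cone_of_sum CData Cp)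

variable {ρ n : ℕ} {R : Type*} [CommRing R] [Algebra ℂ R] {𝒜 : Cl ρ → Submodule ℂ R}
  {u : Cl ρ} {Ψ : Subgroup (R ≃ₐ[ℂ] R)}

theorem real_eq (β : Cl ρ) : real β = rv β := rfl

section Lin

theorem single_sum (x : Fin ρ → ℝ) : ∑ i, x i • rv (Pi.single i 1 : Cl ρ) = x := by
  funext l
  rw [Finset.sum_apply, Finset.sum_eq_single l]
  · simp [rv]
  · intro b' _ hb
    simp [rv, Pi.single_eq_of_ne (Ne.symm hb)]
  · intro h
    exact absurd (Finset.mem_univ _) h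

theorem single_sum_int (β : Cl ρ) : ∑ i, β i • (Pi.single i 1 : Cl ρ) = β := by
  funext l
  rw [Finset.sum_apply, Finset.sum_eq_single l]
  · simp
  · intro b' _ hb
    simp [Pi.single_eq_of_ne (Ne.symm hb)]
  · intro h
    exact absurd (Finset.mem_univ _) h

theorem lin_ext {Q : Type*} [AddCommGroup Q] [Module ℝ Q] {s s' : (Fin ρ → ℝ) →ₗ[ℝ] Q}
    (h : ∀ β : Cl ρ, s (rv β) = s' (rv β)) : s = s' := by
  ext1 i
  ext
  have h1 := h (Pi.single i 1)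
  have h2 : rv (Pi.single i 1 : Cl ρ) = Pi.single i (1 : ℝ) := by
    funext l
    by_cases hl : l = i
    · subst hl; simp [rv]
    · simp [rv, Pi.single_eq_of_ne hl]
  rw [h2] at h1
  simpa using h1

/-- The action on real classes. -/
noncomputable def ract (σ : Cl ρ ≃+ Cl ρ) : (Fin ρ → ℝ) →ₗ[ℝ] (Fin ρ → ℝ) :=
  ∑ i, (LinearMap.proj i : (Fin ρ → ℝ) →ₗ[ℝ] ℝ).smulRight (rv (σ (Pi.single i 1)))

theorem ract_apply (σ : Cl ρ ≃+ Cl ρ) (x : Fin ρ → ℝ) :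
    ract σ x = ∑ i, x i • rv (σ (Pi.single i 1)) := by
  rw [ract, LinearMap.sum_apply]
  rfl

theorem ract_rv (σ : Cl ρ ≃+ Cl ρ) (β : Cl ρ) : ract σ (rv β) = rv (σ β) := by
  rw [ract_apply]
  conv_rhs => rw [← single_sum_int β, map_sum, rv_sum]
  refine Finset.sum_congr rfl fun i _ => ?_
  rw [map_zsmul, rv_zsmul]
  rfl

/-- The action on real classes, as an equivalence. -/
noncomputable def reqv (σ : Cl ρ ≃+ Cl ρ) : (Fin ρ → ℝ) ≃ₗ[ℝ] (Fin ρ → ℝ) :=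
  LinearEquiv.ofLinear (ract σ) (ract σ.symm)
    (lin_ext fun β => by
      rw [LinearMap.comp_apply, ract_rv, ract_rv, σ.apply_symm_apply, LinearMap.id_apply])
    (lin_ext fun β => by
      rw [LinearMap.comp_apply, ract_rv, ract_rv, σ.symm_apply_apply, LinearMap.id_apply])

theorem reqv_rv (σ : Cl ρ ≃+ Cl ρ) (β : Cl ρ) : reqv σ (rv β) = rv (σ β) := ract_rv σ β

end Lin

section Gens

variable [GradedAlgebra 𝒜]

omit [GradedAlgebra 𝒜] in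
theorem IsFibre.base (D : IsFibre 𝒜 u Ψ) : Base 𝒜 (Fin.elim0 : Fin 0 → Cl ρ) where
  gens := fun H hH => by
    rw [eq_top_iff]
    intro β _
    obtain ⟨m, h1, h2⟩ := D.sections β
    have h3 := H.sub_mem (hH _ h1) (hH _ h2)
    rwa [add_sub_cancel_right] at h3
  pointed := fun c _ => funext fun i => i.elim0

theorem induces_unique (D : IsFibre 𝒜 u Ψ) {φ : R ≃ₐ[ℂ] R} {σ σ' : Cl ρ ≃+ Cl ρ}
    (h : Induces 𝒜 φ σ) (h' : Induces 𝒜 φ σ') : σ = σ' := by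
  have h1 : (σ.toAddMonoidHom).eqLocus σ'.toAddMonoidHom = ⊤ := by
    refine D.base.gens _ ?_
    rintro β ⟨r, hr, hr0⟩
    have h2 : φ r ≠ 0 := fun h0 => hr0 ((map_eq_zero_iff _ φ.injective).1 h0)
    exact DirectSum.degree_eq_of_mem_mem 𝒜 (h β r hr) (h' β r hr) h2
  ext1 β
  have h2 : β ∈ (σ.toAddMonoidHom).eqLocus σ'.toAddMonoidHom := by rw [h1]; trivial
  exact h2

/-- The action on classes. -/
noncomputable def sg (D : IsFibre 𝒜 u Ψ) (ψ : Ψ) : Cl ρ ≃+ Cl ρ := (D.perm ψ.1 ψ.2).choose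

omit [GradedAlgebra 𝒜] in
theorem sg_spec (D : IsFibre 𝒜 u Ψ) (ψ : Ψ) : Induces 𝒜 ψ.1 (sg D ψ) :=
  (D.perm ψ.1 ψ.2).choose_spec

theorem sg_eq (D : IsFibre 𝒜 u Ψ) (ψ : Ψ) {σ : Cl ρ ≃+ Cl ρ} (h : Induces 𝒜 ψ.1 σ) :
    sg D ψ = σ := induces_unique D (sg_spec D ψ) h

theorem sg_mul (D : IsFibre 𝒜 u Ψ) (ψ ψ' : Ψ) (β : Cl ρ) :
    sg D (ψ * ψ') β = sg D ψ (sg D ψ' β) := by
  have h1 : Induces 𝒜 (ψ * ψ').1 ((sg D ψ').trans (sg D ψ)) := fun β r hr =>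
    sg_spec D ψ _ _ (sg_spec D ψ' β r hr)
  rw [sg_eq D _ h1]
  rfl

theorem sg_one (D : IsFibre 𝒜 u Ψ) (β : Cl ρ) : sg D 1 β = β := by
  have h1 : Induces 𝒜 (1 : Ψ).1 (AddEquiv.refl (Cl ρ)) := fun β r hr => hr
  rw [sg_eq D _ h1]
  rfl

/-- The representation on real classes. -/
noncomputable def act (D : IsFibre 𝒜 u Ψ) : Ψ →* ((Fin ρ → ℝ) ≃ₗ[ℝ] (Fin ρ → ℝ)) where
  toFun ψ := reqv (sg D ψ)
  map_one' := by
    apply LinearEquiv.toLinearMap_injective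
    refine lin_ext fun β => ?_
    change reqv (sg D 1) (rv β) = rv β
    rw [reqv_rv, sg_one]
  map_mul' ψ ψ' := by
    apply LinearEquiv.toLinearMap_injective
    refine lin_ext fun β => ?_
    change reqv (sg D (ψ * ψ')) (rv β) = reqv (sg D ψ) (reqv (sg D ψ') (rv β))
    rw [reqv_rv, reqv_rv, reqv_rv, sg_mul]

theorem act_rv (D : IsFibre 𝒜 u Ψ) (ψ : Ψ) (β : Cl ρ) : act D ψ (rv β) = rv (sg D ψ β) :=
  reqv_rv _ _

theorem isAction_iff (D : IsFibre 𝒜 u Ψ) (ψ : Ψ) {s : (Fin ρ → ℝ) →ₗ[ℝ] (Fin ρ → ℝ)} :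
    IsAction 𝒜 ψ.1 s ↔ s = act D ψ := by
  constructor
  · rintro ⟨σ, h1, h2⟩
    refine lin_ext fun β => ?_
    change _ = act D ψ (rv β)
    rw [act_rv, sg_eq D ψ h1]
    exact h2 β
  · rintro rfl
    exact ⟨sg D ψ, sg_spec D ψ, fun β => act_rv D ψ β⟩

/-! ### The group of automorphisms -/

/-- The scalars in `Ψ`. -/
def scl (𝒜 : Cl ρ → Submodule ℂ R) (Ψ : Subgroup (R ≃ₐ[ℂ] R)) : Subgroup Ψ :=
  (Scal 𝒜).subgroupOf Ψ

omit [GradedAlgebra 𝒜] in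
theorem scal_conj (D : IsFibre 𝒜 u Ψ) {ψ : R ≃ₐ[ℂ] R} (hψ : ψ ∈ Ψ) {s : R ≃ₐ[ℂ] R}
    (hs : s ∈ Scal 𝒜) : ψ * s * ψ⁻¹ ∈ Scal 𝒜 := by
  intro β
  obtain ⟨σ, hσ⟩ := D.perm ψ⁻¹ (Ψ.inv_mem hψ)
  obtain ⟨c, hc⟩ := hs (σ β)
  refine ⟨c, fun r hr => ?_⟩
  change ψ (s (ψ⁻¹ r)) = _
  rw [hc _ (hσ β r hr), map_smul]
  congr 1
  change (ψ * ψ⁻¹) r = r
  rw [mul_inv_cancel]
  rfl

omit [GradedAlgebra 𝒜] in
theorem scl_normal (D : IsFibre 𝒜 u Ψ) : (scl 𝒜 Ψ).Normal where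
  conj_mem := fun s hs ψ => scal_conj D ψ.2 hs

theorem act_scl (D : IsFibre 𝒜 u Ψ) {s : Ψ} (hs : s ∈ scl 𝒜 Ψ) : act D s = 1 := by
  apply LinearEquiv.toLinearMap_injective
  refine lin_ext fun β => ?_
  change act D s (rv β) = rv β
  have h1 : Induces 𝒜 s.1 (AddEquiv.refl (Cl ρ)) := by
    intro β r hr
    obtain ⟨c, hc⟩ := (show s.1 ∈ Scal 𝒜 from hs) β
    rw [hc r hr]
    exact (𝒜 β).smul_mem c hr
  rw [act_rv, sg_eq D s h1]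
  rfl

theorem act_ker (D : IsFibre 𝒜 u Ψ) {ψ : Ψ} (h : act D ψ = 1) :
    Induces 𝒜 ψ.1 (AddEquiv.refl (Cl ρ)) := by
  have h1 : sg D ψ = AddEquiv.refl (Cl ρ) := by
    ext1 β
    apply rv_inj
    rw [← act_rv, h]
    rfl
  rw [← h1]
  exact sg_spec D ψ

/-- The group of automorphisms of `F`. -/
abbrev Gq (D : IsFibre 𝒜 u Ψ) : Type _ :=
  letI := scl_normal D
  Ψ ⧸ scl 𝒜 Ψ

noncomputable instance (D : IsFibre 𝒜 u Ψ) : Group (Gq D) :=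
  letI := scl_normal D
  QuotientGroup.Quotient.group _

/-- The projection. -/
def mkq (D : IsFibre 𝒜 u Ψ) : Ψ →* Gq D :=
  letI := scl_normal D
  QuotientGroup.mk' (scl 𝒜 Ψ)

/-- The representation of the group of automorphisms. -/
noncomputable def rep (D : IsFibre 𝒜 u Ψ) : Gq D →* ((Fin ρ → ℝ) ≃ₗ[ℝ] (Fin ρ → ℝ)) :=
  letI := scl_normal D
  QuotientGroup.lift (scl 𝒜 Ψ) (act D) (fun _ hs => act_scl D hs)

theorem rep_mk (D : IsFibre 𝒜 u Ψ) (ψ : Ψ) : rep D (mkq D ψ) = act D ψ := rfl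

omit [GradedAlgebra 𝒜] in
theorem mkq_surj (D : IsFibre 𝒜 u Ψ) (g : Gq D) : ∃ ψ, mkq D ψ = g := by
  letI := scl_normal D
  exact QuotientGroup.mk'_surjective (scl 𝒜 Ψ) g

omit [GradedAlgebra 𝒜] in
theorem mkq_eq (D : IsFibre 𝒜 u Ψ) {ψ ψ' : Ψ} : mkq D ψ = mkq D ψ' ↔
    ψ.1⁻¹ * ψ'.1 ∈ Scal 𝒜 := by
  letI := scl_normal D
  exact QuotientGroup.eq (s := scl 𝒜 Ψ)

theorem rep_ker (D : IsFibre 𝒜 u Ψ) : {g | rep D g = 1}.Finite := by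
  classical
  obtain ⟨T, hT, h⟩ := D.discrete
  have h1 : {g | rep D g = 1} ⊆ ⋃ t ∈ T, {g | ∃ ψ : Ψ, mkq D ψ = g ∧ t⁻¹ * ψ.1 ∈ Scal 𝒜} := by
    intro g hg
    obtain ⟨ψ, rfl⟩ := mkq_surj D g
    obtain ⟨t, ht, h2⟩ := h ψ.1 ψ.2 (act_ker D hg)
    simp only [Set.mem_iUnion]
    exact ⟨t, ht, ψ, rfl, h2⟩
  refine Set.Finite.subset (hT.biUnion fun t _ => ?_) h1
  apply Set.Subsingleton.finite
  rintro _ ⟨ψ, rfl, h2⟩ _ ⟨ψ', rfl, h3⟩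
  rw [mkq_eq]
  have h4 := (Scal 𝒜).mul_mem ((Scal 𝒜).inv_mem h2) h3
  have h5 : (t⁻¹ * ψ.1)⁻¹ * (t⁻¹ * ψ'.1) = ψ.1⁻¹ * ψ'.1 := by group
  rwa [h5] at h4

end Gens

end Pool.Agent.J4H47.CG
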