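import Pool.Agent.J4H47.CG.Cone

/-!
# The general theorem
-/

set_option autoImplicit false

namespace Pool.Agent.J4H47.CG

open Finset Filter Topology
open Pool.Agent.W594.SYZ2 Pool.Agent.W594.SYZ2.TQ Pool.Agent.TH735.AQ Pool.Agent.X324.CF
open Pool.Agent.Y167 (cone cone_add cone_smul cone_le cone_mono cone_sum mem_cone_self
  zero_mem_cone cone_image cone_ind cone_of_scaled mem_cone_of_sum Rel Pol Cp CData)
open Pool.Agent.Y167.CC (LinGrp Preserves IsFundDomain)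

section Norm

variable {V R : Type*} [NormedAddCommGroup V] [NormedSpace ℂ V] [CommRing R] [Algebra ℂ R]
  {ρ : ℕ} {𝒜 : Cl ρ → Submodule ℂ R} {Γ : Grp V R} {u : Cl ρ} {Ψ : Subgroup (R ≃ₐ[ℂ] R)}

theorem one_mem_hat {γ : Elt V R} (h : γ ∈ Γ) : γ ∈ hat 𝒜 Γ :=
  ⟨γ, h, 1, (Scal 𝒜).one_mem, by
    change γ = γ * 1
    rw [mul_one]⟩

theorem hat_of (g : Elt V R) {γ : Elt V R} {s : R ≃ₐ[ℂ] R} (hγ : γ ∈ Γ) (hs : s ∈ Scal 𝒜)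
    (h : g = γ * (1, s)) : g ∈ hat 𝒜 Γ := ⟨γ, hγ, s, hs, h⟩

theorem gal_le (h : ∀ γ ∈ Γ, γ.2 ∈ Ψ) : gal Γ ≤ Ψ := by
  rintro _ ⟨γ, hγ, rfl⟩
  exact h γ hγ

/-- Normalisers given by affine transformations. -/
theorem norm_fst {f : V ≃ᵃ[ℂ] V} (h : Normalizes Γ f) : NormalizesP 𝒜 Γ (f, 1) := by
  have hc : ∀ s : R ≃ₐ[ℂ] R, (f, (1 : R ≃ₐ[ℂ] R)) * (1, s) * (f, 1)⁻¹ = (1, s) := by
    intro s
    refine Prod.ext ?_ ?_
    · change f * 1 * f⁻¹ = 1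
      rw [mul_one, mul_inv_cancel]
    · change 1 * s * 1⁻¹ = s
      rw [one_mul, inv_one, mul_one]
  have hc' : ∀ s : R ≃ₐ[ℂ] R, (f, (1 : R ≃ₐ[ℂ] R))⁻¹ * (1, s) * (f, 1) = (1, s) := by
    intro s
    have h1 := hc s
    have h2 : (f, (1 : R ≃ₐ[ℂ] R))⁻¹ * ((f, (1 : R ≃ₐ[ℂ] R)) * (1, s) * (f, 1)⁻¹) * (f, 1)
        = (1, s) := by group
    rw [h1] at h2
    exact h2
  intro γ
  constructor
  · rintro ⟨γ₀, h0, s, hs, rfl⟩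
    refine hat_of _ ((h γ₀).1 h0) hs ?_
    have h1 : (f, (1 : R ≃ₐ[ℂ] R)) * (γ₀ * (1, s)) * (f, 1)⁻¹
        = ((f, (1 : R ≃ₐ[ℂ] R)) * γ₀ * (f, 1)⁻¹) * ((f, 1) * (1, s) * (f, 1)⁻¹) := by group
    rw [h1, hc]
  · rintro ⟨γ₀, h0, s, hs, h1⟩
    have h2 : γ = ((f, (1 : R ≃ₐ[ℂ] R))⁻¹ * γ₀ * (f, 1)) * (1, s) := by
      have h3 : γ = (f, (1 : R ≃ₐ[ℂ] R))⁻¹ * ((f, 1) * γ * (f, 1)⁻¹) * (f, 1) := by group
      rw [h3, h1]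
      have h4 : (f, (1 : R ≃ₐ[ℂ] R))⁻¹ * (γ₀ * (1, s)) * (f, 1)
          = ((f, (1 : R ≃ₐ[ℂ] R))⁻¹ * γ₀ * (f, 1)) * ((f, 1)⁻¹ * (1, s) * (f, 1)) := by group
      rw [h4, hc']
    refine hat_of _ ((h _).2 ?_) hs h2
    have h5 : (f, (1 : R ≃ₐ[ℂ] R)) * ((f, (1 : R ≃ₐ[ℂ] R))⁻¹ * γ₀ * (f, 1)) * (f, 1)⁻¹ = γ₀ := by
      group
    rw [h5]
    exact h0

/-- Normalisers given by automorphisms of `F`. -/
theorem norm_snd {ψ : R ≃ₐ[ℂ] R} (hs : ∀ s ∈ Scal 𝒜, ψ * s * ψ⁻¹ ∈ Scal 𝒜)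
    (hs' : ∀ s ∈ Scal 𝒜, ψ⁻¹ * s * ψ ∈ Scal 𝒜)
    (hc : ∀ φ ∈ gal Γ, φ⁻¹ * (ψ * φ * ψ⁻¹) ∈ Scal 𝒜)
    (hc' : ∀ φ ∈ gal Γ, φ⁻¹ * (ψ⁻¹ * φ * ψ) ∈ Scal 𝒜) :
    NormalizesP (V := V) 𝒜 Γ (1, ψ) := by
  intro γ
  constructor
  · rintro ⟨γ₀, h0, s, h1, rfl⟩
    refine hat_of _ h0 ((Scal 𝒜).mul_mem (hc _ (mem_gal h0)) (hs s h1)) ?_
    refine Prod.ext ?_ ?_
    · change 1 * (γ₀.1 * 1) * 1⁻¹ = γ₀.1 * 1
      rw [inv_one, mul_one, mul_one, one_mul]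
    · change ψ * (γ₀.2 * s) * ψ⁻¹ = γ₀.2 * (γ₀.2⁻¹ * (ψ * γ₀.2 * ψ⁻¹) * (ψ * s * ψ⁻¹))
      group
  · rintro ⟨γ₀, h0, s, h1, h2⟩
    refine hat_of _ h0 ((Scal 𝒜).mul_mem (hc' _ (mem_gal h0)) (hs' s h1)) ?_
    have h3 : γ = (1, ψ)⁻¹ * ((1, ψ) * γ * (1, ψ)⁻¹) * (1, ψ) := by group
    rw [h3, h2]
    refine Prod.ext ?_ ?_
    · change 1⁻¹ * (γ₀.1 * 1) * 1 = γ₀.1 * 1
      rw [inv_one, mul_one, mul_one, one_mul]
    · change ψ⁻¹ * (γ₀.2 * s) * ψ = γ₀.2 * (γ₀.2⁻¹ * (ψ⁻¹ * γ₀.2 * ψ) * (ψ⁻¹ * s * ψ))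
      group

variable [GradedAlgebra 𝒜]

/-- An element of `Ψ` which commutes with the finite group in the group of automorphisms of `F`. -/
theorem norm_comm (D : IsFibre 𝒜 u Ψ) (hΓ : gal Γ ≤ Ψ) {ψ : Ψ}
    (h : ∀ φ : gal Γ, mkq D ψ * mkq D (el hΓ φ) = mkq D (el hΓ φ) * mkq D ψ) :
    NormalizesP (V := V) 𝒜 Γ (1, (ψ⁻¹ : Ψ).1) := by
  have hcomm : ∀ φ : gal Γ, ∀ χ : Ψ, mkq D χ * mkq D (el hΓ φ) = mkq D (el hΓ φ) * mkq D χ →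
      φ.1⁻¹ * (χ.1 * φ.1 * χ.1⁻¹) ∈ Scal 𝒜 := by
    intro φ χ h1
    rw [← map_mul, ← map_mul] at h1
    have h2 := (mkq_eq D).1 h1.symm
    have h3 : (el hΓ φ * χ).1⁻¹ * (χ * el hΓ φ).1 ∈ Scal 𝒜 := h2
    have h4 := scal_conj D χ.2 h3
    have h5 : χ.1 * ((el hΓ φ * χ).1⁻¹ * (χ * el hΓ φ).1) * χ.1⁻¹
        = φ.1⁻¹ * (χ.1 * φ.1 * χ.1⁻¹) := by
      change χ.1 * ((φ.1 * χ.1)⁻¹ * (χ.1 * φ.1)) * χ.1⁻¹ = _
      group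
    rwa [h5] at h4
  have hinv : ∀ φ : gal Γ, mkq D ψ⁻¹ * mkq D (el hΓ φ) = mkq D (el hΓ φ) * mkq D ψ⁻¹ := by
    intro φ
    rw [map_inv, inv_mul_eq_iff_eq_mul, ← mul_assoc, h φ, mul_inv_cancel_right]
  refine norm_snd (fun s hs => scal_conj D (ψ⁻¹).2 hs) (fun s hs => ?_)
    (fun φ hφ => hcomm ⟨φ, hφ⟩ ψ⁻¹ (hinv _)) (fun φ hφ => ?_)
  · have h1 := scal_conj D ψ.2 hs
    have h2 : ((ψ⁻¹ : Ψ) : R ≃ₐ[ℂ] R)⁻¹ * s * ((ψ⁻¹ : Ψ) : R ≃ₐ[ℂ] R) = ψ.1 * s * ψ.1⁻¹ := by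
      rw [Subgroup.coe_inv, inv_inv]
    rwa [h2]
  · have h1 := hcomm ⟨φ, hφ⟩ ψ (h _)
    have h2 : φ⁻¹ * (((ψ⁻¹ : Ψ) : R ≃ₐ[ℂ] R)⁻¹ * φ * ((ψ⁻¹ : Ψ) : R ≃ₐ[ℂ] R))
        = φ⁻¹ * (ψ.1 * φ * ψ.1⁻¹) := by
      rw [Subgroup.coe_inv, inv_inv]
    rwa [h2]

end Norm

variable {V E R : Type*} [NormedAddCommGroup V] [NormedSpace ℂ V] [FiniteDimensional ℂ V]
  [NormedAddCommGroup E] [NormedSpace ℂ E] [FiniteDimensional ℂ E] [CommRing R] [IsDomain R]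
  [Algebra ℂ R] {ρ n : ℕ}
  {𝒜 : Cl ρ → Submodule ℂ R} [GradedAlgebra 𝒜] {Γ : Grp V R} {w : Fin n → Cl ρ}
  {u : Cl ρ} {Ψ : Subgroup (R ≃ₐ[ℂ] R)} {j : E →ₗ[ℂ] V} {H₀ : V → V → ℂ}

omit [FiniteDimensional ℂ V] [FiniteDimensional ℂ E] [IsDomain R] in
/-- The action of an automorphism of `F` which commutes with the finite group. -/
theorem exists_pull3 (D : IsFibre 𝒜 u Ψ) (hQ : IsQuotient 𝒜 u Γ) (hΓ : gal Γ ≤ Ψ) {ψ : Ψ}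
    (h : ∀ φ : gal Γ, mkq D ψ * mkq D (el hΓ φ) = mkq D (el hΓ φ) * mkq D ψ) :
    ∃ G : N1 𝒜 Γ j ≃ₗ[ℝ] N1 𝒜 Γ j,
      (∀ a, (val (G a)).1 = (val a).1) ∧ ∀ a, (val (G a)).2 = act D ψ (val a).2 := by
  have := hQ.fin_gal
  have : Fintype (gal Γ) := Fintype.ofFinite _
  have hmem : ∀ χ : Ψ, (∀ φ : gal Γ, mkq D χ * mkq D (el hΓ φ) = mkq D (el hΓ φ) * mkq D χ) →
      ∀ x ∈ Bs 𝒜 Γ, act D χ x ∈ Bs 𝒜 Γ := by
    intro χ hχ x hx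
    rw [mem_Bs D hΓ] at hx ⊢
    intro φ
    have h1 : act D (el hΓ φ) (act D χ x) = rep D (mkq D (el hΓ φ) * mkq D χ) x := by
      rw [map_mul]
      rfl
    rw [h1, ← hχ φ, map_mul]
    change act D χ (act D (el hΓ φ) x) = _
    rw [hx φ]
  have hinv : ∀ φ : gal Γ, mkq D ψ⁻¹ * mkq D (el hΓ φ) = mkq D (el hΓ φ) * mkq D ψ⁻¹ := by
    intro φ
    rw [map_inv, inv_mul_eq_iff_eq_mul, ← mul_assoc, h φ, mul_inv_cancel_right]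
  let a : Bs 𝒜 Γ ≃ₗ[ℝ] Bs 𝒜 Γ :=
    { toFun := fun x => ⟨act D ψ x, hmem ψ h _ x.2⟩
      map_add' := fun x y => Subtype.ext (map_add (act D ψ) _ _)
      map_smul' := fun t x => Subtype.ext (map_smul (act D ψ) t _)
      invFun := fun x => ⟨act D ψ⁻¹ x, hmem ψ⁻¹ hinv _ x.2⟩
      left_inv := fun x => Subtype.ext (act_inv_apply D ψ x.1)
      right_inv := fun x => Subtype.ext (act_apply_inv D ψ x.1) }
  let G : N1 𝒜 Γ j ≃ₗ[ℝ] N1 𝒜 Γ j := ((eqv D.base hQ).trans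
    (LinearEquiv.prodCongr (LinearEquiv.refl ℝ _) a)).trans (eqv D.base hQ).symm
  have hG : ∀ b, G b = i1 (p1 hQ b) + i2 D.base hQ (a (p2 b)) := fun b => rfl
  refine ⟨G, fun b => ?_, fun b => ?_⟩
  · rw [hG]
    change (val b).1 + 0 = _
    rw [add_zero]
  · rw [hG]
    change (0 : Fin ρ → ℝ) + act D ψ (val b).2 = _
    rw [zero_add]

/-- **The nef cone conjecture for `(A × F) / G`**, general form. -/
theorem core (D : IsFibre 𝒜 u Ψ) (Hd : HoldsF 𝒜 u Ψ w) (hQ : IsQuotient 𝒜 u Γ)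
    (hΓ : gal Γ ≤ Ψ) (Rl : Rel (base Γ) j H₀)
    {ι : Type*} [Fintype ι] (Δ : EffDiv 𝒜 Γ ι) (hΔ : NumTrivial Δ j)
    (hΨ : ∀ ψ ∈ Ψ, NormalizesP 𝒜 Γ (1, ψ) → FixedP Δ (1, ψ))
    (𝒢 : LinGrp (N1 𝒜 Γ j)) (hint : Preserves 𝒢 (integral 𝒜 Γ j))
    (hcone : Preserves 𝒢 (nefCone 𝒜 Γ j u ∩ effCone 𝒜 Γ j))
    (haut : ∀ g : Elt V R, g.2 ∈ Ψ → NormalizesP 𝒜 Γ g → (∀ v, ∃ e, g.1 v = v + j e) →
      FixedP Δ g → ∀ G : N1 𝒜 Γ j ≃ₗ[ℝ] N1 𝒜 Γ j, IsPullbackP g G → G ∈ 𝒢) :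
    ∃ S : Finset (N1 𝒜 Γ j), ↑S ⊆ integral 𝒜 Γ j ∧
      cone S ⊆ nefCone 𝒜 Γ j u ∩ effCone 𝒜 Γ j ∧
      IsFundDomain 𝒢 (nefCone 𝒜 Γ j u ∩ effCone 𝒜 Γ j) (cone S) := by
  classical
  have hcp := cp_eqG D Hd hQ hΓ Rl
  have hexp := expo_pos hQ
  have hexpr : (0 : ℝ) < expo Γ := by exact_mod_cast hexp
  have := hQ.fin_gal
  have hcard : 0 < Nat.card (gal Γ) := Nat.card_pos
  have hcardr : (0 : ℝ) < Nat.card (gal Γ) := by exact_mod_cast hcard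
  -- the data for the form
  let M1 : AddSubgroup (Pool.Agent.Y167.N1 (base Γ) j) :=
    { carrier := {a | Pool.Agent.Y167.Integral ((expo Γ : ℝ) • a)}
      add_mem' := fun {a b} ha hb => by
        change Pool.Agent.Y167.Integral ((expo Γ : ℝ) • (a + b))
        rw [smul_add]
        exact ha.add hb
      zero_mem' := by
        change Pool.Agent.Y167.Integral ((expo Γ : ℝ) • 0)
        rw [smul_zero]
        exact Pool.Agent.Y167.Integral.zero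
      neg_mem' := fun {a} ha => by
        change Pool.Agent.Y167.Integral ((expo Γ : ℝ) • (-a))
        rw [smul_neg]
        exact ha.neg }
  have hnat : ∀ (k : ℕ) (a : Pool.Agent.Y167.N1 (base Γ) j), Pool.Agent.Y167.Integral a →
      Pool.Agent.Y167.Integral ((k : ℝ) • a) := by
    intro k a ha
    have h1 := (Pool.Agent.Y167.intL (base Γ) j).nsmul_mem ha k
    rw [← Nat.cast_smul_eq_nsmul ℝ] at h1
    exact h1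
  obtain ⟨ξ1, y1, Y1, D1, hy1⟩ := Pool.Agent.Y167.exists_cdata Rl M1 hexp
    (fun a ha => hnat _ _ (hnat _ _ ha)) (fun a ha => ha)
  obtain ⟨ξ2, Y2, cu, y2, hcu, hy2, D2, F', hF'm, hF'c⟩ := fix_cover D Hd hQ hΓ
  have hk : 0 < expo Γ * Nat.card (gal Γ) := Nat.mul_pos hexp hcard
  have hnatI : ∀ (k : ℕ) (a : N1 𝒜 Γ j), a ∈ integral 𝒜 Γ j → (k : ℝ) • a ∈ integral 𝒜 Γ j := by
    intro k a ha
    have h1 := (intL 𝒜 Γ j).nsmul_mem ha k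
    rw [← Nat.cast_smul_eq_nsmul ℝ] at h1
    exact h1
  obtain ⟨ξ₀, Y, DD⟩ := cdata_prod (L := intL 𝒜 Γ j) D1 D2 (p1 hQ) p2 i1 (i2 D.base hQ)
    (fun a => p1_i1 hQ a) (fun a => p2_i1 a) (fun b => p1_i2 D.base hQ b)
    (fun b => p2_i2 D.base hQ b) (fun a => split D.base hQ a) hk
    (fun a ha => Int.p1 hQ ha)
    (fun a ha => by
      obtain ⟨β, hβ, h1⟩ := Int.p2 ha
      exact ⟨β, hβ, h1⟩)
    (fun a ha => by
      have h1 : ((expo Γ * Nat.card (gal Γ) : ℕ) : ℝ) • (i1 a : N1 𝒜 Γ j)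
          = (Nat.card (gal Γ) : ℝ) • i1 ((expo Γ : ℝ) • a) := by
        rw [map_smul, smul_smul]
        push_cast
        rw [mul_comm]
      rw [h1]
      exact hnatI _ _ (Int.i1 ha))
    (fun b hb => by
      obtain ⟨β, hβ, h2⟩ := hb
      have h1 : ((expo Γ * Nat.card (gal Γ) : ℕ) : ℝ) • (i2 D.base hQ b : N1 𝒜 Γ j)
          = (expo Γ : ℝ) • ((Nat.card (gal Γ) : ℝ) • i2 D.base hQ b) := by
        rw [smul_smul]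
        push_cast
        rfl
      rw [h1]
      exact hnatI _ _ (Int.i2 D.base hQ hβ h2))
  have hset : {a : N1 𝒜 Γ j | p1 hQ a ∈ Pool.Agent.Y167.nefCone (base Γ) j ∧
      p2 a ∈ {b : Bs 𝒜 Γ | b.1 ∈ nefConeF 𝒜 u}} = KG 𝒜 Γ j u := rfl
  rw [hset] at DD
  set y₀ : N1 𝒜 Γ j := ((expo Γ * Nat.card (gal Γ) : ℕ) : ℝ) • (i1 y1 + i2 D.base hQ y2) with hy₀
  have hkr : (0 : ℝ) < ((expo Γ * Nat.card (gal Γ) : ℕ) : ℝ) := by exact_mod_cast hk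
  -- form and degree of the interior point
  set K₁ : ℝ := ((expo Γ * Nat.card (gal Γ) : ℕ) : ℝ) * expo Γ with hK₁
  have hK₁pos : 0 < K₁ := mul_pos hkr hexpr
  set K₂ : ℝ := ((expo Γ * Nat.card (gal Γ) : ℕ) : ℝ) * cu with hK₂
  have hK₂pos : 0 < K₂ := mul_pos hkr hcu
  have hyf : ∀ e, ((val y₀).1 e e).re = K₁ * (H₀ (j e) (j e)).re := by
    intro e
    have h1 : (val y₀).1 e e = ((expo Γ * Nat.card (gal Γ) : ℕ) : ℝ) • (y1.1 e e + 0) := rfl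
    have e1 : (expo Γ : ℂ) = ((expo Γ : ℝ) : ℂ) := by push_cast; rfl
    rw [h1, add_zero, hy1, Complex.smul_re, e1, Complex.re_ofReal_mul, smul_eq_mul, hK₁]
    ring
  have hyd : (val y₀).2 = K₂ • rv u := by
    change ((expo Γ * Nat.card (gal Γ) : ℕ) : ℝ) • ((0 : Fin ρ → ℝ) + y2.1) = _
    rw [zero_add, hy2, smul_smul]
  have hform : ∀ (a b : N1 𝒜 Γ j) (t : ℝ) (e : E), ((val (a + t • b)).1 e e).re
      = ((val a).1 e e).re + t * ((val b).1 e e).re := by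
    intro a b t e
    change ((val a).1 e e + t • (val b).1 e e).re = _
    rw [Complex.add_re, Complex.smul_re, smul_eq_mul]
  -- the interior
  have hint2 : ∀ a : N1 𝒜 Γ j, (∃ t : ℝ, 0 < t ∧ a - t • y₀ ∈ KG 𝒜 Γ j u) →
      (∃ t : ℝ, 0 < t ∧ ∀ e, t * (H₀ (j e) (j e)).re ≤ ((val a).1 e e).re) ∧
      ∃ t : ℝ, 0 < t ∧ (val a).2 - t • rv u ∈ nefConeF 𝒜 u := by
    rintro a ⟨t, ht, hat⟩
    refine ⟨⟨t * K₁, mul_pos ht hK₁pos, fun e => ?_⟩, ⟨t * K₂, mul_pos ht hK₂pos, ?_⟩⟩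
    · have h1 := hat.1 e
      have h2 : a - t • y₀ = a + (-t) • y₀ := by rw [neg_smul, sub_eq_add_neg]
      rw [h2, hform, hyf] at h1
      linarith
    · have h1 := hat.2
      have h2 : (val (a - t • y₀)).2 = (val a).2 - (t * K₂) • rv u := by
        change (val a).2 - t • (val y₀).2 = _
        rw [hyd, smul_smul]
      rwa [h2] at h1
  have hAmem : ∀ a : N1 𝒜 Γ j, (∃ t : ℝ, 0 < t ∧ a - t • y₀ ∈ KG 𝒜 Γ j u) →
      a ∈ nefCone 𝒜 Γ j u ∩ effCone 𝒜 Γ j := by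
    intro a ha
    obtain ⟨⟨t, ht, h1⟩, ⟨t', ht', h2⟩⟩ := hint2 a ha
    have h3 := int_class D hQ hΓ Rl ht h1 (int_mem' D ht' h2)
    exact ⟨subset_closure (hull_le (fun b hb => hull_mem hb.1) h3),
      hull_le (fun b hb => hull_mem hb.2) h3⟩
  -- the group preserves the closed cone
  have hclos := closure_eqG D hQ hΓ Rl
  have hGK : ∀ g ∈ 𝒢, ∀ a ∈ KG 𝒜 Γ j u, g a ∈ KG 𝒜 Γ j u := by
    intro g hg a ha
    refine KG_lim (b := g y₀) fun ε hε => subset_closure ?_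
    have h2 := hcone g hg _ (hAmem (a + ε • y₀) ⟨ε, hε, by rwa [add_sub_cancel_right]⟩)
    rw [map_add, map_smul, hclos] at h2
    exact h2.1
  -- the covering
  obtain ⟨d, b, Pl⟩ := Rl.pol
  obtain ⟨F, hF', hFc⟩ := Pl.red
  obtain ⟨m₀, hm₀, hauts⟩ := exists_aut2 hQ Rl
  obtain ⟨𝓡, h𝓡f, h𝓡U, h𝓡⟩ := Pl.fin_idx (Pool.Agent.Y167.finite_opE Rl) (by
    rintro y ⟨γ, hγ, hx⟩ v hv
    change j (y v) ∈ latt (base Γ)
    rw [hx]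
    exact latt_inv γ hγ hv) m₀ hm₀
  have hcl : ∀ z r, z ∈ F → r ∈ 𝓡 → ∃ (a : Pool.Agent.Y167.N1 (base Γ) j) (m : ℕ), 0 < m ∧
      Pool.Agent.Y167.Integral a ∧ a ∈ Pool.Agent.Y167.nefCone (base Γ) j ∧
      ∀ v w, a.1 v w = m * z (r v) (r w) := by
    intro z r hz hr
    obtain ⟨hz1, hz2⟩ := hF' z hz
    have hrU := h𝓡U r hr
    have h1 : Pol.IsInt (Pool.Agent.Y167.lattE (base Γ) j) (Pool.Agent.Y167.opE (base Γ) j)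
        (fun v w => z (r v) (r w)) := by
      refine ⟨⟨?_, ?_, ?_⟩, ?_, ?_⟩
      · intro u v w
        rw [map_add, hz1.herm.add_left]
      · intro c v w
        rw [map_smul, hz1.herm.smul_left]
      · intro v w
        exact hz1.herm.symm _ _
      · intro g hg u w
        rw [hrU.comm g hg, hrU.comm g hg, hz1.inv g hg]
      · intro u hu w hw
        exact hz1.int _ (hrU.map u hu) _ (hrU.map w hw)
    obtain ⟨m, hm, L, H, hL, h2, -⟩ := Rl.exists_class h1 (fun v => hz2 (r v))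
    obtain ⟨a, ha1, ha2⟩ := Pool.Agent.Y167.exists_int (j := j) (L := L)
      (h := fun u w => H (j u) (j w)) ⟨H, hL, fun _ _ => rfl⟩
    refine ⟨a, m, hm, ha2, fun v => ?_, fun v w => ?_⟩
    · rw [ha1]
      change 0 ≤ (H (j v) (j v)).re
      rw [h2]
      have e1 : (m : ℂ) = ((m : ℝ) : ℂ) := by push_cast; rfl
      rw [e1, Complex.re_ofReal_mul]
      exact mul_nonneg (Nat.cast_nonneg _) (hz2 (r v))
    · rw [ha1]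
      exact h2 v w
  choose! af mf hmf haf1 haf2 haf3 using hcl
  let iB : Bs 𝒜 Γ → N1 𝒜 Γ j := fun s => (Nat.card (gal Γ) : ℝ) • i2 D.base hQ s
  let F₂ : Finset (N1 𝒜 Γ j) := ((F ×ˢ h𝓡f.toFinset).image fun p => i1 (af p.1 p.2)) ∪ F'.image iB
  have hF₂ : ∀ a ∈ F₂, a ∈ intL 𝒜 Γ j ∧ a ∈ KG 𝒜 Γ j u := by
    intro a ha
    rcases Finset.mem_union.1 ha with ha | ha
    · obtain ⟨p, hp, rfl⟩ := Finset.mem_image.1 ha
      rw [Finset.mem_product, h𝓡f.mem_toFinset] at hp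
      exact ⟨Int.i1 (haf1 _ _ hp.1 hp.2), haf2 _ _ hp.1 hp.2, nefF_zero⟩
    · obtain ⟨s, hs, rfl⟩ := Finset.mem_image.1 ha
      obtain ⟨⟨β, hβ, h1⟩, h2⟩ := hF'm s hs
      exact ⟨Int.i2 D.base hQ hβ h1, KG_smul hcardr.le ⟨fun e => le_refl (0 : ℝ), h2⟩⟩
  have hcov : ∀ a : N1 𝒜 Γ j, (∃ t : ℝ, 0 < t ∧ a - t • y₀ ∈ KG 𝒜 Γ j u) → ∃ g ∈ 𝒢,
      g a ∈ cone F₂ := by
    intro a ha
    obtain ⟨⟨t, ht, h1⟩, h2⟩ := hint2 a ha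
    obtain ⟨q, hu1, hu2, hu3, c, hc, hx⟩ := hFc (p1 hQ a).1
      (Pool.Agent.Y167.mem_span_int Rl (p1 hQ a)) ⟨t, ht, h1⟩
    obtain ⟨r, hr, q', hq', hqr⟩ := h𝓡 q ⟨hu1, hu2, hu3⟩
    obtain ⟨f, hf0, hf1, hf2, hf3⟩ := hauts q'.symm hq'.inv
    obtain ⟨G, hG1, hG2⟩ := exists_pull2 (j := j) D.base hQ hf1 hf2
    have hG𝒢 : G ∈ 𝒢 := by
      refine haut (f, 1) Ψ.one_mem (norm_fst hf0) (fun v => ?_)
        (fixed_of_good hQ Rl Δ hΔ hq'.inv hf3) G ?_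
      · obtain ⟨e, he⟩ := hf3 v
        exact ⟨_, he⟩
      · intro a
        refine ⟨fun v w v' w' hv hw => ?_, fun s hs => ?_⟩
        · have hv' : j v' = f.linear (j v) := hv
          have hw' : j w' = f.linear (j w) := hw
          rw [hf2] at hv' hw'
          rw [hG1, Rl.inj hv', Rl.inj hw']
        · have h3 := (isAction_iff D (1 : Ψ)).1 hs
          rw [h3, map_one]
          exact hG2 a
    obtain ⟨ψ, hψ, hψc⟩ := hF'c (p2 a) h2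
    obtain ⟨G', hG'1, hG'2⟩ := exists_pull3 (j := j) D hQ hΓ hψ
    have hG'𝒢 : G' ∈ 𝒢 := by
      refine haut (1, (ψ⁻¹ : Ψ).1) (ψ⁻¹).2 (norm_comm D hΓ hψ) (fun v => ⟨0, ?_⟩)
        (hΨ _ (ψ⁻¹).2 (norm_comm D hΓ hψ)) G' ?_
      · rw [map_zero, add_zero]
        rfl
      · intro a
        refine ⟨fun v w v' w' hv hw => ?_, fun s hs => ?_⟩
        · have hv' : j v' = j v := hv
          have hw' : j w' = j w := hw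
          rw [hG'1, Rl.inj hv', Rl.inj hw']
        · have h3 := (isAction_iff D (ψ⁻¹)).1 hs
          rw [h3, hG'2]
          exact act_inv_apply D ψ _
    refine ⟨G' * G, 𝒢.mul_mem hG'𝒢 hG𝒢, ?_⟩
    have hGG : (G' * G) a = G' (G a) := rfl
    rw [hGG, ← split D.base hQ (G' (G a))]
    refine cone_add ?_ ?_
    · have h3 : p1 hQ (G' (G a)) = ∑ z ∈ F, (c z / mf z r) • af z r := by
        apply Subtype.ext
        funext v w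
        have h4 : (∑ z ∈ F, (c z / mf z r) • af z r : Pool.Agent.Y167.N1 (base Γ) j).1
            = ∑ z ∈ F, (c z / mf z r) • (af z r).1 := by
          rw [Submodule.coe_sum]
          rfl
        have h5 : (p1 hQ (G' (G a))).1 v w = (p1 hQ a).1 (q'.symm v) (q'.symm w) := by
          have h6 : (p1 hQ (G' (G a))).1 v w = (val (G' (G a))).1 v w := rfl
          rw [h6, hG'1]
          exact hG1 a v w
        rw [h5, hx, h4]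
        simp only [Finset.sum_apply, Pi.smul_apply]
        refine Finset.sum_congr rfl fun z hz => ?_
        rw [hqr, hqr, q'.apply_symm_apply, q'.apply_symm_apply, haf3 z r hz hr, Complex.real_smul]
        have hm : ((mf z r : ℕ) : ℂ) ≠ 0 := by
          have := hmf z r hz hr
          exact_mod_cast this.ne'
        push_cast
        field_simp
      rw [h3, map_sum]
      refine cone_sum _ _ fun z hz => ?_
      rw [map_smul]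
      refine cone_smul (mem_cone_self (Finset.mem_union_left _ ?_))
        (div_nonneg (hc z) (Nat.cast_nonneg _))
      exact Finset.mem_image.2 ⟨(z, r), by
        rw [Finset.mem_product, h𝓡f.mem_toFinset]
        exact ⟨hz, hr⟩, rfl⟩
    · have h3 : (p2 (G' (G a))).1 = act D ψ (p2 a).1 := by
        change (val (G' (G a))).2 = act D ψ (val a).2
        rw [hG'2, hG2]
      have h4 := hψc _ h3
      have h5 : (i2 D.base hQ (p2 (G' (G a))) : N1 𝒜 Γ j)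
          = (Nat.card (gal Γ) : ℝ)⁻¹ • ((Nat.card (gal Γ) : ℝ) • i2 D.base hQ)
            (p2 (G' (G a))) := by
        rw [LinearMap.smul_apply, smul_smul, inv_mul_cancel₀ hcardr.ne', one_smul]
      rw [h5]
      refine cone_smul ?_ (inv_nonneg.2 hcardr.le)
      exact cone_mono Finset.subset_union_right
        (cone_image ((Nat.card (gal Γ) : ℝ) • i2 D.base hQ) h4)
  obtain ⟨S, hS1, hS2, hS3⟩ := DD.domain 𝒢 (fun g hg a ha => hint g hg a ha) hGK F₂ hF₂ hcov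
  rw [hcp]
  refine ⟨S, fun a ha => (hS1 a ha).1, fun a ha => ⟨S, hS1, ha⟩, ?_, fun g hg hg1 => ?_⟩
  · ext a
    simp only [Set.mem_iUnion, Set.mem_image, exists_prop]
    rw [hS2]
    constructor
    · rintro ⟨g, hg, hga⟩
      exact ⟨g⁻¹, 𝒢.inv_mem hg, g a, hga, g.symm_apply_apply a⟩
    · rintro ⟨g, hg, y, hy, rfl⟩
      refine ⟨g⁻¹, 𝒢.inv_mem hg, ?_⟩
      have h1 : (g⁻¹ : N1 𝒜 Γ j ≃ₗ[ℝ] N1 𝒜 Γ j) (g y) = y := g.symm_apply_apply y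
      rwa [h1]
  · obtain ⟨φ, hφ0, hφ1, hφ2⟩ := hS3 g hg hg1
    refine interior_inter (continuous_sub_smul (v := (val : N1 𝒜 Γ j → Pairs E ρ))
      Topology.IsInducing.subtypeVal (fun _ _ => rfl) (fun _ _ => rfl)) hφ0 hφ1 ?_
    rintro _ ⟨y, hy, rfl⟩
    exact hφ2 y hy

/-- The nef effective cone is the convex hull of the rational nef classes. -/
theorem plusG (D : IsFibre 𝒜 u Ψ) (Hd : HoldsF 𝒜 u Ψ w) (hQ : IsQuotient 𝒜 u Γ)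
    (hΓ : gal Γ ≤ Ψ) (Rl : Rel (base Γ) j H₀) :
    nefCone 𝒜 Γ j u ∩ effCone 𝒜 Γ j = convexHull ℝ (nefCone 𝒜 Γ j u ∩
      {x | ∃ n : ℕ, 0 < n ∧ (n : ℝ) • x ∈ integral 𝒜 Γ j}) := by
  rw [cp_eqG D Hd hQ hΓ Rl, closure_eqG D hQ hΓ Rl,
    cp_eq_convexHull KG_zero fun t ht a ha => KG_smul ht ha]
  rfl

/-- The theorem for a fibration. -/
theorem final {W : Type*} [NormedAddCommGroup W] [NormedSpace ℂ W] [FiniteDimensional ℂ W]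
    (hF : IsFibre 𝒜 u Ψ) (hw : HoldsF 𝒜 u Ψ w)
    (hX : IsQuotient 𝒜 u Γ) (hΓ : ∀ γ ∈ Γ, γ.2 ∈ Ψ)
    (hproj : ∃ (L : Sheaf 𝒜 Γ) (H : V → V → ℂ), L.IsChern H ∧ IsPositiveForm H)
    {Γ' : AffG W} {π : V →ₗ[ℂ] W} (hπ : IsFibration (base Γ) Γ' π)
    (hj : Function.Injective j) (hjr : LinearMap.range j = LinearMap.ker π)
    {ι : Type*} [Fintype ι] (Δ : EffDiv 𝒜 Γ ι) (hΔ : NumTrivial Δ j)
    (hΨ : ∀ ψ ∈ Ψ, NormalizesP 𝒜 Γ (1, ψ) → FixedP Δ (1, ψ))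
    (𝒢 : LinGrp (N1 𝒜 Γ j)) (h1 : Preserves 𝒢 (integral 𝒜 Γ j))
    (h2 : Preserves 𝒢 (nefCone 𝒜 Γ j u ∩ effCone 𝒜 Γ j))
    (h3 : ∀ g : Elt V R, g.2 ∈ Ψ → NormalizesP 𝒜 Γ g →
      (∃ δ ∈ Γ', ∀ v, π (g.1 v) = δ (π v)) → FixedP Δ g →
      ∀ G : N1 𝒜 Γ j ≃ₗ[ℝ] N1 𝒜 Γ j, IsPullbackP g G → G ∈ 𝒢) :
    (∃ S : Finset (N1 𝒜 Γ j), ↑S ⊆ integral 𝒜 Γ j ∧
      cone S ⊆ nefCone 𝒜 Γ j u ∩ effCone 𝒜 Γ j ∧
      IsFundDomain 𝒢 (nefCone 𝒜 Γ j u ∩ effCone 𝒜 Γ j) (cone S)) ∧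
    nefCone 𝒜 Γ j u ∩ effCone 𝒜 Γ j = convexHull ℝ (nefCone 𝒜 Γ j u ∩
      {a | ∃ m : ℕ, 0 < m ∧ (m : ℝ) • a ∈ integral 𝒜 Γ j}) := by
  obtain ⟨H₀, Rl⟩ := rel_emb hX hproj hπ hj hjr
  refine ⟨core hF hw hX (gal_le hΓ) Rl Δ hΔ hΨ 𝒢 h1 h2
    (fun g hg1 hg2 hg3 hg4 G hG => h3 g hg1 hg2 ⟨1, Γ'.one_mem, fun v => ?_⟩ hg4 G hG),
    plusG hF hw hX (gal_le hΓ) Rl⟩
  obtain ⟨e, he⟩ := hg3 v
  have h5 : π (j e) = 0 := by
    have h6 : j e ∈ LinearMap.ker π := hjr ▸ LinearMap.mem_range_self j e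
    exact h6
  rw [he, map_add, h5, add_zero]
  rfl

end Pool.Agent.J4H47.CG
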