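import Pool.Agent.K3h69.KQ.Abs

/-!
# The rational points of a cone whose interior is covered by the translates of a polyhedral cone
-/

set_option autoImplicit false

namespace Pool.Agent.J4H47.CG

open Pool.Agent.Y167 Finset Filter Topology
open Pool.Agent.K3h69.KQ

variable {W : Type*} [AddCommGroup W] [Module ℝ W]
  {L : AddSubgroup W} {Nf : Set W} {ξ₀ : W →ₗ[ℝ] ℝ} {y₀ : W} {Y : Finset W}

/-- Only finitely many elements of the group move an interior point of a polyhedral cone into this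
cone. -/
theorem fin_meet (D : CData L Nf ξ₀ y₀ Y) (𝒢 : Subgroup (W ≃ₗ[ℝ] W))
    (hL : ∀ g ∈ 𝒢, ∀ x ∈ L, g x ∈ L) (hN : ∀ g ∈ 𝒢, ∀ x ∈ Nf, g x ∈ Nf)
    (F : Finset W) (hF : ∀ a ∈ F, a ∈ L ∧ a ∈ Nf) :
    {k : W ≃ₗ[ℝ] W | k ∈ 𝒢 ∧ ∃ z, z ∈ cone F ∧ (∃ t : ℝ, 0 < t ∧ z - t • y₀ ∈ Nf) ∧
      k z ∈ cone F}.Finite := by
  classical
  obtain ⟨T, hT𝒢, hT⟩ := D.exists_dickson 𝒢 hL hN D.xi_int (c := 1) one_pos
    (fun x _ => by rw [one_mul]) F hF
  have hTne : T.Nonempty := by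
    obtain ⟨t, ht, -⟩ := hT 1 𝒢.one_mem
    exact ⟨t, ht⟩
  let yA : Finset W → W := fun A => ∑ a ∈ A, a
  let B : Finset W → Set (W ≃ₗ[ℝ] W) := fun A =>
    {g | g ∈ 𝒢 ∧ ξ₀ (g (yA A)) ≤ ∑ t ∈ T, ξ₀ (t (yA A))}
  let Ps : Finset (Finset W) := F.powerset.filter fun A => ∃ t : ℝ, 0 < t ∧ yA A - t • y₀ ∈ Nf
  have hB : ∀ A ∈ Ps, (B A).Finite := fun A hA =>
    fin_int D 𝒢 hL hN (Finset.mem_filter.1 hA).2 _
  have hfin : (⋃ t ∈ T, ⋃ A ∈ Ps, (fun g : W ≃ₗ[ℝ] W => t⁻¹ * g) '' B A).Finite :=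
    Set.Finite.biUnion T.finite_toSet fun t _ =>
      Set.Finite.biUnion Ps.finite_toSet fun A hA => (hB A hA).image _
  refine hfin.subset ?_
  rintro k ⟨hk, z, hz, ⟨s, hs, hsz⟩, hkz⟩
  -- the minimum of `ξ₀` on the orbit is attained at `t (k z)`
  obtain ⟨t, ht, hmin⟩ := Finset.exists_min_image T (fun t => ξ₀ (t (k z))) hTne
  have horb : ∀ g ∈ 𝒢, ξ₀ (t (k z)) ≤ ξ₀ (g (k z)) := by
    intro g hg
    obtain ⟨t', ht', hle⟩ := hT g hg
    refine (hmin t' ht').trans ?_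
    exact CData.le_of_cone (t := (t' : W →ₗ[ℝ] W)) (g := (g : W →ₗ[ℝ] W)) (fun a ha => hle a ha) hkz
  obtain ⟨t', ht', hle⟩ := hT (t * k) (𝒢.mul_mem (hT𝒢 t ht) hk)
  obtain ⟨c, hc, hzc⟩ := hz
  let A : Finset W := F.filter fun a => 0 < c a
  have hAF : A ⊆ F := Finset.filter_subset _ _
  have hterm : ∀ a ∈ A, ξ₀ ((t * k) a) ≤ ξ₀ (t' a) := by
    intro a ha
    have h1 : ∑ a ∈ F, c a * (ξ₀ ((t * k) a) - ξ₀ (t' a)) = ξ₀ ((t * k) z) - ξ₀ (t' z) := by
      rw [hzc]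
      simp only [map_sum, map_smul, smul_eq_mul]
      rw [← Finset.sum_sub_distrib]
      exact Finset.sum_congr rfl fun a _ => by ring
    have h2 : (t' * k⁻¹) (k z) = t' z := by
      have : (t' * k⁻¹) (k z) = (t' * k⁻¹ * k) z := rfl
      rw [this, inv_mul_cancel_right]
    have h3 : ∑ a ∈ F, c a * (ξ₀ ((t * k) a) - ξ₀ (t' a)) ≤ 0 := by
      rw [h1]
      have h4 := horb (t' * k⁻¹) (𝒢.mul_mem (hT𝒢 t' ht') (𝒢.inv_mem hk))
      rw [h2] at h4
      have h5 : (t * k) z = t (k z) := rfl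
      rw [h5]
      linarith
    have h4 : c a * (ξ₀ ((t * k) a) - ξ₀ (t' a)) ≤ 0 := by
      refine le_trans ?_ h3
      exact Finset.single_le_sum (f := fun a => c a * (ξ₀ ((t * k) a) - ξ₀ (t' a)))
        (fun b hb => mul_nonneg (hc b) (sub_nonneg.2 (hle b hb))) (hAF ha)
    have h5 : 0 < c a := (Finset.mem_filter.1 ha).2
    by_contra hcon
    push Not at hcon
    have : 0 < c a * (ξ₀ ((t * k) a) - ξ₀ (t' a)) := mul_pos h5 (sub_pos.2 hcon)
    linarith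
  have hA : A ∈ Ps := by
    refine Finset.mem_filter.2 ⟨Finset.mem_powerset.2 hAF, ?_⟩
    set C : ℝ := 1 + ∑ a ∈ F, c a with hC
    have hC0 : 0 < C := by
      have : 0 ≤ ∑ a ∈ F, c a := Finset.sum_nonneg fun a _ => hc a
      linarith
    have h1 : C • yA A - z = ∑ a ∈ F, (if 0 < c a then C - c a else 0) • a := by
      have e1 : yA A = ∑ a ∈ F, (if 0 < c a then (1 : ℝ) else 0) • a := by
        show ∑ a ∈ F.filter _, a = _
        rw [Finset.sum_filter]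
        refine Finset.sum_congr rfl fun a _ => ?_
        split_ifs <;> simp
      conv_lhs => rw [e1, hzc]
      rw [Finset.smul_sum, ← Finset.sum_sub_distrib]
      refine Finset.sum_congr rfl fun a _ => ?_
      split_ifs with h
      · rw [one_smul, sub_smul]
      · have : c a = 0 := le_antisymm (not_lt.1 h) (hc a)
        rw [this]
        simp
    have h2 : C • yA A - z ∈ Nf := by
      refine D.cone_Nf hF ⟨fun a => if 0 < c a then |C - c a| else 0, fun a => ?_, ?_⟩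
      · dsimp only
        split_ifs
        · exact abs_nonneg _
        · exact le_rfl
      · rw [h1]
        refine Finset.sum_congr rfl fun a ha => ?_
        dsimp only
        split_ifs
        · have : c a ≤ ∑ a ∈ F, c a := Finset.single_le_sum (fun a _ => hc a) ha
          rw [abs_of_nonneg (by linarith)]
        · rfl
    refine ⟨C⁻¹ * s, by positivity, ?_⟩
    have h3 := D.smul C⁻¹ (by positivity) _ (D.add _ h2 _ hsz)
    have h4 : C⁻¹ • (C • yA A - z + (z - s • y₀)) = yA A - (C⁻¹ * s) • y₀ := by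
      rw [sub_add_sub_cancel, smul_sub, smul_smul, inv_mul_cancel₀ hC0.ne', one_smul, smul_smul]
    rwa [h4] at h3
  simp only [Set.mem_iUnion]
  refine ⟨t, ht, A, hA, t * k, ⟨𝒢.mul_mem (hT𝒢 t ht) hk, ?_⟩, inv_mul_cancel_left t k⟩
  have h1 : ξ₀ ((t * k) (yA A)) ≤ ξ₀ (t' (yA A)) := by
    show ξ₀ ((t * k) (∑ a ∈ A, a)) ≤ ξ₀ (t' (∑ a ∈ A, a))
    rw [map_sum, map_sum, map_sum, map_sum]
    exact Finset.sum_le_sum hterm
  have hyN : yA A ∈ Nf := by
    refine D.cone_Nf hF ⟨fun a => if 0 < c a then (1 : ℝ) else 0, fun a => ?_, ?_⟩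
    · dsimp only
      split_ifs <;> norm_num
    · show ∑ a ∈ F.filter _, a = _
      rw [Finset.sum_filter]
      refine Finset.sum_congr rfl fun a _ => ?_
      dsimp only
      split_ifs <;> simp
  exact h1.trans (Finset.single_le_sum (f := fun t : W ≃ₗ[ℝ] W => ξ₀ (t (yA A)))
    (fun t ht => D.xi_nonneg (hN t (hT𝒢 t ht) _ hyN)) ht')

/-- All rational points are covered. -/
theorem cp_cover (D : CData L Nf ξ₀ y₀ Y) (𝒢 : Subgroup (W ≃ₗ[ℝ] W))
    (hL : ∀ g ∈ 𝒢, ∀ x ∈ L, g x ∈ L) (hN : ∀ g ∈ 𝒢, ∀ x ∈ Nf, g x ∈ Nf)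
    (F : Finset W) (hF : ∀ a ∈ F, a ∈ L ∧ a ∈ Nf)
    (hcov : ∀ x, (∃ t : ℝ, 0 < t ∧ x - t • y₀ ∈ Nf) → ∃ g ∈ 𝒢, g x ∈ cone F)
    {x : W} (hx : x ∈ Cp L Nf) : ∃ g ∈ 𝒢, g x ∈ cone F := by
  classical
  obtain ⟨A', hA', hxA⟩ := hx
  let δ : ℕ → ℝ := fun n => 1 / ((n : ℝ) + 1)
  have hδpos : ∀ n, 0 < δ n := fun n => by simp only [δ]; positivity
  have hδ : Tendsto δ atTop (𝓝 0) := tendsto_one_div_add_atTop_nhds_zero_nat
  have hxN : x ∈ Nf := D.cone_Nf hA' hxA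
  have hg : ∀ n, ∃ g ∈ 𝒢, g (x + δ n • y₀) ∈ cone F := by
    intro n
    apply hcov
    refine ⟨δ n, hδpos n, ?_⟩
    rwa [add_sub_cancel_right]
  choose g hg𝒢 hgS using hg
  let F₁ : Finset W := F ∪ insert y₀ A'
  have hF₁ : ∀ a ∈ F₁, a ∈ L ∧ a ∈ Nf := by
    intro a ha
    rcases Finset.mem_union.1 ha with h | h
    · exact hF a h
    · rcases Finset.mem_insert.1 h with rfl | h
      · exact ⟨D.y_L, D.y_N⟩
      · exact hA' a h
  have hfin := fin_meet D 𝒢 hL hN F₁ hF₁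
  have hrange : (Set.range g).Finite := hfin.subset (by
    rintro _ ⟨n, rfl⟩
    refine ⟨hg𝒢 n, x + δ n • y₀, ?_, ⟨δ n, hδpos n, by rwa [add_sub_cancel_right]⟩,
      cone_mono Finset.subset_union_left (hgS n)⟩
    refine cone_add (cone_mono ?_ hxA) (cone_smul (mem_cone_self ?_) (hδpos n).le)
    · exact (Finset.subset_insert _ _).trans Finset.subset_union_right
    · exact Finset.mem_union_right _ (Finset.mem_insert_self _ _))
  obtain ⟨h, hh⟩ : ∃ h : W ≃ₗ[ℝ] W, {n | g n = h}.Infinite := by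
    by_contra hcon
    push Not at hcon
    have h1 : (Set.univ : Set ℕ) ⊆ ⋃ h ∈ Set.range g, {n | g n = h} := by
      intro n _
      simp only [Set.mem_iUnion]
      exact ⟨g n, ⟨n, rfl⟩, rfl⟩
    have h2 : (⋃ h ∈ Set.range g, {n | g n = h}).Finite :=
      hrange.biUnion fun h _ => by simpa using hcon h
    exact Set.infinite_univ (h2.subset h1)
  have hh𝒢 : h ∈ 𝒢 := by
    obtain ⟨n, hn⟩ := hh.nonempty
    have hn : g n = h := hn
    rw [← hn]; exact hg𝒢 n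
  refine ⟨h, hh𝒢, ?_⟩
  let S : Finset W := F.filter (· ≠ 0)
  have hS : ∀ x, x ∈ cone F → x ∈ cone S := by
    intro x hx
    refine cone_le (fun a ha => ?_) hx
    by_cases h : a = 0
    · rw [h]; exact zero_mem_cone S
    · exact mem_cone_self (Finset.mem_filter.2 ⟨ha, h⟩)
  have hSpos : ∀ a ∈ S, 0 < ξ₀ a := fun a ha =>
    D.xi_pos a (hF a (Finset.mem_filter.1 ha).1).2 (Finset.mem_filter.1 ha).2
  let k : ℕ → ℕ := Nat.nth (fun n => g n = h)
  have hk : StrictMono k := Nat.nth_strictMono hh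
  have hkm : ∀ n, g (k n) = h := fun n => Nat.nth_mem_of_infinite hh n
  refine cone_mono (Finset.filter_subset _ _) (cone_closed (S := S) ξ₀ hSpos (p := h x)
    (q := h y₀) (δ := δ ∘ k) (hδ.comp hk.tendsto_atTop) (fun n => ?_))
  have h1 := hgS (k n)
  rw [hkm n, map_add, map_smul] at h1
  exact hS _ h1

end Pool.Agent.J4H47.CG
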